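import Pool.Agent.H9.Bry.Defs
import Pool.Agent.H54.Crit
import Pool.Agent.H54.K4
import Pool.Agent.H15.HX.Defs
import Pool.Agent.H78.HX.HW3

/-! Row HMC of the board hxb. -/

set_option autoImplicit false

namespace Pool.Agent.H15.HX

open Pool.Agent.H9.Bry Finset
open Pool.Agent.H54.Bry

theorem HMC_pair (k k' : Fin 6) (h : k ≠ k') : ∃ B : Finset (Fin 6), B.card = 3 ∧
    B ≠ {0, 1, 3} ∧ B ≠ {0, 2, 4} ∧ B ≠ {1, 2, 5} ∧ k ∈ B ∧ k' ∈ B := by
  revert k k'
  decide

/-- a copy of the whirl in a contraction gives a minor -/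
theorem w3_of_not_hexfree {α F V : Type*} [Finite α] [Field F] [AddCommGroup V] [Module F V]
    {M : Matroid α} {v : α → V}
    (hv : ∀ I : Set α, I ⊆ M.E → (M.Indep I ↔ LinearIndepOn F v I))
    {Z : Set V} (hZ : Z ⊆ coneOf F v M.E) {e g a : V} {γ : F} (hγ : γ ≠ 0) (hγ1 : γ ≠ -1)
    (hind : ∀ c₁ c₂ c₃ : F, c₁ • e + c₂ • g + c₃ • a ∈ Submodule.span F Z →
      c₁ = 0 ∧ c₂ = 0 ∧ c₃ = 0)
    (h0 : MemMod F (coneOf F v M.E) Z e) (h1 : MemMod F (coneOf F v M.E) Z g)
    (h2 : MemMod F (coneOf F v M.E) Z a) (h3 : MemMod F (coneOf F v M.E) Z (e + g))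
    (h5 : MemMod F (coneOf F v M.E) Z (g + a))
    (h4 : MemMod F (coneOf F v M.E) Z (a + γ • e)) : HasW3Minor M := by
  classical
  -- the set contracted
  obtain ⟨Z₀, hZ₀⟩ := M.exists_isBasis {y | y ∈ M.E ∧ ∃ c : F, c ≠ 0 ∧ c • v y ∈ Z}
    (fun y hy => hy.1)
  have hspan : Submodule.span F (v '' Z₀) = Submodule.span F Z := by
    rw [← span_basis_eq hv hZ₀]
    apply le_antisymm
    · rw [Submodule.span_le]
      rintro _ ⟨y, ⟨_, c, hc, hcz⟩, rfl⟩
      have h := Submodule.smul_mem (Submodule.span F Z) c⁻¹ (Submodule.subset_span hcz)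
      rwa [smul_smul, inv_mul_cancel₀ hc, one_smul] at h
    · rw [Submodule.span_le]
      intro z hz
      obtain ⟨c, y, hy, rfl⟩ := hZ hz
      by_cases hc : c = 0
      · rw [hc, zero_smul]
        exact Submodule.zero_mem _
      · exact Submodule.smul_mem _ _ (Submodule.subset_span ⟨y, ⟨hy, c, hc, hz⟩, rfl⟩)
  have hCE : Z₀ ⊆ M.E := hZ₀.indep.subset_ground
  have hCind : M.Indep Z₀ := hZ₀.indep
  have hCli : LinearIndepOn F v Z₀ := (hv _ hCE).1 hCind
  -- the six elements
  let u : Fin 6 → V := ![e, g, a, e + g, a + γ • e, g + a]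
  have hu : ∀ k, MemMod F (coneOf F v M.E) Z (u k) := by
    intro k
    fin_cases k
    · exact h0
    · exact h1
    · exact h2
    · exact h3
    · exact h4
    · exact h5
  have hu0 : ∀ k, u k ∉ Submodule.span F Z := by
    intro k hk
    fin_cases k
    · have := hind 1 0 0 (by simpa [u] using hk)
      simp at this
    · have := hind 0 1 0 (by simpa [u] using hk)
      simp at this
    · have := hind 0 0 1 (by simpa [u] using hk)
      simp at this
    · have := hind 1 1 0 (by simpa [u] using hk)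
      simp at this
    · have := hind γ 0 1 (by simpa [u, add_comm] using hk)
      exact hγ this.1
    · have := hind 0 1 1 (by simpa [u] using hk)
      simp at this
  have hex : ∀ k, ∃ c : F, ∃ y, c ≠ 0 ∧ y ∈ M.E ∧ u k - c • v y ∈ Submodule.span F Z := by
    intro k
    obtain ⟨_, ⟨c, y, hy, rfl⟩, h⟩ := hu k
    refine ⟨c, y, ?_, hy, h⟩
    rintro rfl
    rw [zero_smul, sub_zero] at h
    exact hu0 k h
  choose c x hc0 hxE hcx using hex
  -- the quotient
  have hmk : ∀ k, (Submodule.span F (v '' Z₀)).mkQ (v (x k)) =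
      (c k)⁻¹ • (Submodule.span F (v '' Z₀)).mkQ (u k) := by
    intro k
    have h : (Submodule.span F (v '' Z₀)).mkQ (u k) =
        (Submodule.span F (v '' Z₀)).mkQ (c k • v (x k)) := by
      rw [Submodule.mkQ_apply, Submodule.mkQ_apply, Submodule.Quotient.eq, hspan]
      exact hcx k
    rw [h, map_smul, smul_smul, inv_mul_cancel₀ (hc0 k), one_smul]
  have hxC : ∀ k, x k ∉ Z₀ := by
    intro k hk
    apply hu0 k
    have h1 : v (x k) ∈ Submodule.span F Z := by
      rw [← hspan]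
      exact Submodule.subset_span ⟨x k, hk, rfl⟩
    have h2 := Submodule.add_mem _ (hcx k) (Submodule.smul_mem _ (c k) h1)
    rwa [sub_add_cancel] at h2
  -- the map `L`
  let L : (Fin 3 → F) →ₗ[F] V ⧸ (Submodule.span F (v '' Z₀)) :=
    (LinearMap.proj 0).smulRight ((Submodule.span F (v '' Z₀)).mkQ e) +
    (LinearMap.proj 1).smulRight ((Submodule.span F (v '' Z₀)).mkQ g) +
    (LinearMap.proj 2).smulRight ((Submodule.span F (v '' Z₀)).mkQ a)
  have hL : ∀ w, L w = w 0 • (Submodule.span F (v '' Z₀)).mkQ e +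
      w 1 • (Submodule.span F (v '' Z₀)).mkQ g +
      w 2 • (Submodule.span F (v '' Z₀)).mkQ a := by
    intro w
    rfl
  have hLinj : Function.Injective L := by
    rw [← LinearMap.ker_eq_bot, LinearMap.ker_eq_bot']
    intro w hw
    rw [hL] at hw
    have h6 : (Submodule.span F (v '' Z₀)).mkQ (w 0 • e + w 1 • g + w 2 • a) = 0 := by
      rw [map_add, map_add, map_smul, map_smul, map_smul]
      exact hw
    rw [Submodule.mkQ_apply, Submodule.Quotient.mk_eq_zero, hspan] at h6
    obtain ⟨h7, h8, h9⟩ := hind _ _ _ h6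
    ext k
    fin_cases k
    · exact h7
    · exact h8
    · exact h9
  let T : Fin 6 → (Fin 3 → F) := fun k => (c k)⁻¹ • (![![1, 0, 0], ![0, 1, 0], ![0, 0, 1],
    ![1, 1, 0], ![γ, 0, 1], ![0, 1, 1]] : Fin 6 → (Fin 3 → F)) k
  have hLq : ∀ k, L (T k) = (Submodule.span F (v '' Z₀)).mkQ (v (x k)) := by
    intro k
    rw [hmk]
    show L ((c k)⁻¹ • _) = _
    rw [map_smul, hL]
    congr 1
    fin_cases k
    · simp [u]
    · simp [u]
    · simp [u]
    · simp [u]
    · simp [u, add_comm]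
    · simp [u]
  have hl : ∀ k, (fun k => (c k)⁻¹) k ≠ 0 := fun k => inv_ne_zero (hc0 k)
  have hxinj : Function.Injective x := by
    intro k k' h
    by_contra hne
    obtain ⟨B, b1, b2, b3, b4, b6, b7⟩ := HMC_pair k k' hne
    have hli : LinearIndepOn F T (B : Set (Fin 6)) := w3_good hγ hγ1 hl B b1 b2 b3 b4
    have h8 : T k = T k' := by
      apply hLinj
      rw [hLq, hLq, h]
    exact hne (hli.injOn (by simpa using b6) (by simpa using b7) h8)
  have key : ∀ B : Set (Fin 6), LinearIndepOn F v (Z₀ ∪ x '' B) ↔ LinearIndepOn F T B := by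
    intro B
    have hdisj : Disjoint Z₀ (x '' B) := by
      rw [Set.disjoint_left]
      rintro _ h1 ⟨k, _, rfl⟩
      exact hxC k h1
    rw [← hCli.quotient_iff_union hdisj]
    have h1 : LinearIndepOn F ((Submodule.span F (v '' Z₀)).mkQ ∘ v) (x '' B) ↔
        LinearIndepOn F ((Submodule.span F (v '' Z₀)).mkQ ∘ v ∘ x) B := by
      constructor
      · intro h
        exact h.comp_of_image hxinj.injOn
      · intro h
        exact LinearIndepOn.image_of_comp x _ h
    rw [h1]
    have h2 : (Submodule.span F (v '' Z₀)).mkQ ∘ v ∘ x = L ∘ T := by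
      funext k
      exact (hLq k).symm
    rw [h2]
    apply LinearMap.linearIndepOn_iff_of_injOn
    exact hLinj.injOn
  refine ⟨(M.contract Z₀).delete (M.E \ Set.range x), Matroid.contract_delete_isMinor M _ _, ?_⟩
  apply isW3_of (x := x) hxinj ?_ hγ hγ1 hl
  · intro B
    show _ ↔ LinearIndepOn F T (B : Set (Fin 6))
    rw [← key, ← hv _ (Set.union_subset hCE (by rintro _ ⟨k, _, rfl⟩; exact hxE k)),
      Matroid.delete_indep_iff, hCind.contract_indep_iff]
    have hd1 : Disjoint (x '' (B : Set (Fin 6))) Z₀ := by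
      rw [Set.disjoint_left]
      rintro _ ⟨k, _, rfl⟩
      exact hxC k
    have hd2 : Disjoint (x '' (B : Set (Fin 6))) (M.E \ Set.range x) := by
      rw [Set.disjoint_left]
      rintro _ ⟨k, _, rfl⟩ h
      exact h.2 ⟨k, rfl⟩
    rw [Set.union_comm]
    tauto
  · rw [Matroid.delete_ground, Matroid.contract_ground]
    ext y
    constructor
    · rintro ⟨⟨h1, h2⟩, h3⟩
      by_contra h4
      exact h3 ⟨h1, h4⟩
    · rintro ⟨k, rfl⟩
      exact ⟨⟨hxE k, hxC k⟩, fun h => h.2 ⟨k, rfl⟩⟩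

end Pool.Agent.H15.HX
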